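import Pool.Agent.Results.MP_16fe43_al.WhiteheadTraces
import Pool.Agent.X270.Comm.Cone

/-!
# Whitehead groups, cyclic cohomology of odd degree and commensurating actions

If `G` is torsion-free and the Whitehead group of `G` is trivial, then for every invertible matrix `u`
over `ℤ[G]` there is `γ ∈ G` such that all cycles of odd dimension in the sense of Connes take the same
value on `u` and on `γ`. We prove this for all cycles of finite type over `K[G]`, `K` any field of
characteristic zero, and all invertible matrices over `K[G]`, if every `g ≠ 1` in `G` is unbounded for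
some commensurating action of `G`, for example if `G` acts freely and properly on a CAT(0) cube complex
of finite or infinite dimension, or if `G` is torsion-free and acts faithfully on a Cantor set by
almost similarities of a self-similar torsion group (torsion-free subgroups of the Higman-Thompson
groups and of Röver's group).
-/

set_option autoImplicit false

namespace Pool.Agent.Results.MP_16fe43_al.CommensuratingTraces

open Pool.Agent.X270.Comm
open Pool.Agent.Results.MP_16fe43_al.WhiteheadTraces

universe w u1 u2 u3 u4 u5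

/-- `G` has a commensurating action such that the symmetric differences of `g ^ m A` and `A` have
unbounded cardinality. -/
def Unbounded {G : Type u2} [Group G] (g : G) : Prop :=
  ∃ (X : Type w) (_ : MulAction G X) (A : Set X), Commensurated G A ∧
    ∀ b : ℕ, ∃ m : ℕ, b < (moved A (g ^ m)).ncard

/-- There is `γ ∈ G` such that `T (v δu (δv δu) ^ n) = T (γ⁻¹ δγ (δγ⁻¹ δγ) ^ n)` for all `n ≥ 0` and all
cycles `(Ω, δ, T)` over `K[G]` of dimension `2 n + 1` with values in a vector space `M` such that the
values on the elements of `supp u v` lie in the module generated by a finite set over the subring of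
`K` generated by a finite set. -/
def TracesFromGroup (K : Type u1) [Field K] (G : Type u2) [Group G] {d : Type u3}
    [Fintype d] [DecidableEq d] (u v : Matrix d d (MonoidAlgebra K G)) : Prop :=
  ∃ γ : G, ∀ (Ω : Type u4) [Ring Ω] [Algebra K Ω] (𝒜 : ℕ → Submodule K Ω) [GradedAlgebra 𝒜]
    (M : Type u5) [AddCommGroup M] [Module K M] (δ : Ω →ₗ[K] Ω) (T : Ω →ₗ[K] M) (n : ℕ),
    IsCycle (2 * n + 1) 𝒜 δ T → ∀ ρ : MonoidAlgebra K G →ₐ[K] Ω, (∀ a, ρ a ∈ 𝒜 0) →
    (∃ (s : Finset K) (F : Finset M), ∀ (a : supp u v) (l : List (supp u v)),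
      l.length = 2 * n + 1 → value δ T ρ a (l.map Subtype.val) ∈
        Submodule.span (Algebra.adjoin ℤ (s : Set K)) (F : Set M)) →
    onMat δ T ρ n u v = onElt δ T ρ n γ

theorem main (K : Type u1) [Field K] [CharZero K] (G : Type u2) [Group G]
    (hG : ∀ g : G, g ≠ 1 → Unbounded.{w} g) (d : Type u3)
    [Fintype d] [DecidableEq d] (u v : Matrix d d (MonoidAlgebra K G)) (huv : u * v = 1)
    (hvu : v * u = 1) : TracesFromGroup.{u1, u2, u3, u4, u5} K G u v := by
  obtain ⟨γ, hγ⟩ := WhiteheadTraces.result.{u1, u2, u3, u4, u5} K G d u v huv hvu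
  refine ⟨γ, ?_⟩
  intro Ω _ _ 𝒜 _ M _ _ δ T n hT ρ hρ hval
  refine hγ Ω 𝒜 M δ T n hT ρ hρ (Or.inl ⟨hval, fun g hg => Or.inl ?_⟩)
  refine Nat.infinite_setOfPred_prime.mono ?_
  intro p hp
  refine ⟨hp, fun j hj hc => ?_⟩
  obtain ⟨X, _, A, hA, hU⟩ := hG (g : G) fun h => hg (Subtype.ext h)
  refine not_conj hA (g : G) hU (k := p ^ j) ?_ ?_
  · exact (Nat.Prime.two_le hp).trans (Nat.le_self_pow (by omega) _)
  · obtain ⟨c, hc⟩ := isConj_iff.1 hc
    exact isConj_iff.2 ⟨c, by simpa using congrArg Subtype.val hc⟩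

theorem result (K : Type u1) [Field K] [CharZero K] (G : Type u2) [Group G] :
    -- (1) commensurating actions
    ((∀ g : G, g ≠ 1 → Unbounded.{w} g) → ∀ (d : Type u3) [Fintype d] [DecidableEq d]
      (u v : Matrix d d (MonoidAlgebra K G)), u * v = 1 → v * u = 1 →
        TracesFromGroup.{u1, u2, u3, u4, u5} K G u v) ∧
    -- (2) torsion-free groups of almost similarities of a torsion group
    ((∀ (g : G) (m : ℕ), 0 < m → g ^ m = 1 → g = 1) →
      ∀ (C : Type w) (D : Type) [Nonempty C] [Nontrivial D] [Finite D] (c : D × C ≃ C)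
        (Γ : Subgroup (Equiv.Perm C)), SelfSimilar c Γ → (∀ γ ∈ Γ, IsOfFinOrder γ) →
        ∀ φ : G →* Equiv.Perm C, Function.Injective φ → (∀ g : G, (bad c Γ (φ g)).Finite) →
          ∀ (d : Type u3) [Fintype d] [DecidableEq d]
            (u v : Matrix d d (MonoidAlgebra K G)), u * v = 1 → v * u = 1 →
              TracesFromGroup.{u1, u2, u3, u4, u5} K G u v) := by
  refine ⟨fun hG d _ _ u v huv hvu => main.{w} K G hG d u v huv hvu, ?_⟩
  intro hG C D _ _ _ c Γ hΓ hΓt φ hinj hφ d _ _ u v huv hvu
  refine main.{w} K G (fun g hg => ?_) d u v huv hvu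
  refine ⟨Set (C → C), actS φ, cls c Γ, commensurated φ hφ, ?_⟩
  by_contra hcon
  push Not at hcon
  obtain ⟨B, hB⟩ := hcon
  obtain ⟨m, hm, h1⟩ := isOfFinOrder_iff_pow_eq_one.1
    (finOrder_of_bounded hΓ hΓt φ hinj hφ g B hB)
  exact hg (hG _ m hm h1)

end Pool.Agent.Results.MP_16fe43_al.CommensuratingTraces
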