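import Pool.Agent.X201.FJ.Resid

/-!
# Splittings with edge groups of finite rank, detected residually

`C` is any class of groups with the closure properties `ClosedE C`, for example the class of the groups that
satisfy the K-theoretic Farrell–Jones conjecture with coefficients and finite wreath products. Let the group
`Γ` act on a tree (inversions are allowed) such that

* the edge stabilizers have finite rank (`FinRank`): they have a finite chain of subgroups `1 = K₀ ≤ … ≤ K_n`
  such that any two elements of `K_{i+1}` without a nonzero power in `K_i` have nonzero powers in the same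
  left coset of `K_i`; for example virtually polycyclic groups, see `FinRank.of_cyclic` and
  `FinRank.of_finiteIndex`;
* each nontrivial element of an edge stabilizer is mapped to an element of infinite order by some
  homomorphism from `Γ` to a group in `C`; for example `Γ` is residually torsion-free nilpotent.

Then `Γ` is in `C` if and only if all vertex stabilizers are in `C`.
-/

set_option autoImplicit false

namespace Pool.Agent.Results.MP_16fe43_al.ResidualSplittings

open Pool.Agent.Y110.FJ Pool.Agent.X201.FJ

/-- Let `C` be a class of groups with the closure properties `ClosedE C` and let `Γ` act on the tree `T`.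
If the stabilizers of the edges have finite rank (`FinRank`) and each nontrivial element of an edge
stabilizer has infinite order in the image of some homomorphism from `Γ` to a group in `C`, then `Γ` is
in `C` if and only if all vertex stabilizers are in `C`. -/
theorem result (C : ∀ (G : Type) [Group G], Prop) (hC : ClosedE C) (Γ V : Type) [Group Γ]
    [MulAction Γ V] (T : SimpleGraph V) (hT : T.IsTree)
    (hadj : ∀ (g : Γ) (u v : V), T.Adj u v → T.Adj (g • u) (g • v))
    (hrk : ∀ u v : V, T.Adj u v → FinRank (MulAction.stabilizer Γ u ⊓ MulAction.stabilizer Γ v))
    (hres : ∀ u v : V, T.Adj u v → ∀ k : Γ, k • u = u → k • v = v → k ≠ 1 →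
      ∃ (P : Type) (_ : Group P) (f : Γ →* P), C P ∧ ∀ n : ℤ, n ≠ 0 → f k ^ n ≠ 1) :
    C Γ ↔ ∀ v : V, C (MulAction.stabilizer Γ v) :=
  tree_resid hC hT hadj hrk hres

/-- Groups obtained from the trivial group by extensions with cyclic quotient and by overgroups of finite
index have finite rank. -/
theorem finRank_closure (Γ : Type) [Group Γ] (K' : Subgroup Γ) (h : FinRank K') :
    (∀ t : Γ, (∀ x ∈ K', t * x * t⁻¹ ∈ K' ∧ t⁻¹ * x * t ∈ K') → FinRank (K' ⊔ Subgroup.zpowers t)) ∧
    ∀ K : Subgroup Γ, K' ≤ K → K'.relIndex K ≠ 0 → FinRank K :=
  ⟨fun t ht => FinRank.of_cyclic K' h t ht, fun K hle hfi => FinRank.of_finiteIndex K' K h hle hfi⟩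

end Pool.Agent.Results.MP_16fe43_al.ResidualSplittings
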