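import Pool.Agent.X176.FJ.SyC
import Pool.Agent.Y110.FJ.Stm

/-!
# Symmetric automorphisms of free products of three groups

`C` is any class of groups with the closure properties `ClosedE C`. The class of the groups that satisfy
the K-theoretic Farrell–Jones conjecture with coefficients and finite wreath products is such a class,
and its extensions with free kernel are in the class. `SymAut G` is the group of the automorphisms of
the free product of the three groups `G i` that map each factor to a conjugate of itself. We show that
its quotient by the inner automorphisms is in `C` if and only if the holomorphs of the `G i` are, and
that the same holds for the group itself if `C` is closed under extensions with free kernel.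

The proof shows by ping-pong and folding on the Bass–Serre tree of the free product `N` that
`SymAut G ⧸ InnS G` is the semidirect product of `N` and the product of the `Aut (G i)`.
-/

set_option autoImplicit false

namespace Pool.Agent.Results.MP_16fe43_al.SymmetricAutomorphisms

open Pool.Agent.Y110.FJ Pool.Agent.X176.FJ

theorem result (C : ∀ (G : Type) [Group G], Prop) (hC : ClosedE C) (G : Fin 3 → Type)
    [∀ i, Group (G i)] [∀ i, Nontrivial (G i)] : OutIff C G ∧ (FreeKer C → AutIff C G) :=
  ⟨Sy.out_iff hC, fun hFK => Sy.aut_iff hC hFK⟩

end Pool.Agent.Results.MP_16fe43_al.SymmetricAutomorphisms
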