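import Pool.Agent.X252.WhV
import Pool.Agent.Y477.IW.GP

/-!
The Whitehead groups of wreath products and of semidirect products with equivariant retractions.

`R` is any ring and `Wh(G; R)` is the quotient of `K₁(R[G])` by the subgroup generated by the image
of `K₁(R)` and the classes `[g]`, `g ∈ G`; for `R = ℤ` this is the Whitehead group of `G`. The group
`Γ` acts on a set `X` with finite stabilizers and on a group `N`, and `e_S` (`S ⊆ X`) are compatible
retractions of `N`; for instance `N` is the graph product of copies of any group `P` over an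
invariant graph with vertex set `X` (for the complete graph on `X = Γ` the group `N ⋊ Γ` is the
restricted wreath product of `P` and `Γ`). `T` is any group and `K(G) = Wh(G × T; R)`.

The coinvariants of `K(N)` embed in `K(N ⋊ Γ)` modulo `K(Γ)`, up to the orders of the finite
subgroups of `Γ`. For torsion-free `Γ` the parts of `K(N)` belonging to different orbits of finite
subsets of `X` are independent in `K(N ⋊ Γ)`, and if `K(N ⋊ Γ) = 0`, then `K(N) = 0` and `K(N_S) = 0`
for the parts `N_S` of `N` (the finite powers of `P`, for instance).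
-/

namespace Pool.Agent.Results.MP_16fe43_al.WhiteheadWreathProducts

open Pool.Agent.Y477.IW Pool.Agent.Y75.MQ Pool.Agent.X252.Wh CategoryTheory

theorem result (T Γ X : Type) [Group T] [Group Γ] [MulAction Γ X]
    (hst : ∀ v : X, Finite (MulAction.stabilizer Γ v)) :
    (∀ (R : Type) [Ring R] (N : Type) [Group N] (φ : Γ →* MulAut N)
      (us : USupp φ X) (m : ℕ), (∀ K : Subgroup Γ, Finite K → Nat.card K ∣ m) →
      CoinvariantsEmbed (timesF T ⋙ whF R) φ m ∧
      ((∀ g : Γ, g ≠ 1 → ¬ IsOfFinOrder g) →
        OrbitsIndependent (timesF T ⋙ whF R) us ∧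
        (WhZero R ((N ⋊[φ] Γ) × T) → WhZero R (N × T) ∧ ∀ S : Set X, WhZero R (us.part S × T)))) ∧
    ∀ (P : Type) [Group P] (Λ : SimpleGraph X),
      (∀ (γ : Γ) (u v : X), Λ.Adj u v → Λ.Adj (γ • u) (γ • v)) → HasRetractions Γ P Λ :=
  ⟨fun R _ _ _ _ us m hm => ⟨(all_wh R T us hst m hm).1, fun htf =>
      ⟨(all_wh R T us hst m hm).2.1 htf, fun h0 => vanish_wh R T us hst htf h0⟩⟩,
    fun P _ Λ hΛ => hasRetractions Γ P Λ hΛ⟩

end Pool.Agent.Results.MP_16fe43_al.WhiteheadWreathProducts
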